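import Pool.Agent.N671.UT.Psh

/-!
# The exceptional set of a plurisubharmonic function has Lebesgue measure zero

The definitions (`Cn n` = complex `n`-space with its Hermitian norm, `IsPSH Ω φ` = plurisubharmonic
on `Ω` with values in `[-∞, ∞)`, `HasUpperTest Ω φ z` = a differential test from above at `z`,
`exceptional Ω φ` = the set `E(φ)`) are those of the starting file `NotPluripolar`.

Proof.  Locally, for the truncation `u = max(φ, -L)`, let `u_ε` be mollifications with radial
kernels.  For the smooth function `u_ε` the map `T x = x - ∇u_ε(x)/M` sends the contact set of
paraboloids of opening `M` and vertices in a ball `B'` onto `B'`, and at contact points its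
derivative `1 - D²u_ε/M` is symmetric, nonnegative and of trace at most the dimension, so its
determinant is at most one: the contact set has at least the measure of `B'`.  The upper limit of
the contact sets of `u_ε`, `ε → 0`, consists of contact points of `u`.
-/

set_option autoImplicit false

namespace Pool.Agent.Results.MP_725b87_an.ExceptionalSetNull

open MeasureTheory
open Pool.Agent.Results.MP_725b87_an.NotPluripolar (Cn IsPSH HasUpperTest exceptional)

/-- Positive answer to Q1, in every dimension and on every domain `Ω` (in particular on every
bounded pseudoconvex domain): if `φ` is plurisubharmonic on `Ω` and not identically `-∞`, then the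
set `E(φ)` of the points of `Ω` where `φ` admits no differential test from above has Lebesgue
measure zero. -/
theorem result (n : ℕ) (Ω : Set (Cn n)) (hΩ : IsOpen Ω) (hc : IsPreconnected Ω)
    (φ : Cn n → EReal) (hφ : IsPSH Ω φ) (hne : ∃ z ∈ Ω, φ z ≠ ⊥) :
    volume (exceptional Ω φ) = 0 :=
  Pool.Agent.N671.UT.exceptional_null Ω hΩ hc φ hφ hne

end Pool.Agent.Results.MP_725b87_an.ExceptionalSetNull
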